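import Mathlib

set_option autoImplicit false

/-!
A strictly decreasing sequence of classes of ultrafilters on the positive integers, ordered by
multiplicative finite embeddability, which has no greatest lower bound.
-/

namespace Pool.Agent.Results.MP_26c4ab_lc.NoGLB

/-- `A` is (multiplicatively) finitely embeddable in `B`: every finite subset of `A` has a
multiple `k F` contained in `B`. -/
def SetFE (A B : Set ℕ+) : Prop :=
  ∀ F : Finset ℕ+, (F : Set ℕ+) ⊆ A → ∃ k : ℕ+, ∀ x ∈ F, k * x ∈ B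

/-- Finite embeddability of ultrafilters on the positive integers. -/
def UltraFE (F G : Ultrafilter ℕ+) : Prop :=
  ∀ B ∈ G, ∃ A ∈ F, SetFE A B

theorem SetFE.refl (A : Set ℕ+) : SetFE A A := fun F hF =>
  ⟨1, fun x hx => by simpa using hF hx⟩

theorem SetFE.trans {A B C : Set ℕ+} (h1 : SetFE A B) (h2 : SetFE B C) : SetFE A C := by
  classical
  intro F hF
  obtain ⟨k, hk⟩ := h1 F hF
  obtain ⟨l, hl⟩ := h2 (F.image (fun x => k * x)) (by
    intro y hy
    simp only [Finset.coe_image, Set.mem_image, Finset.mem_coe] at hy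
    obtain ⟨x, hx, rfl⟩ := hy
    exact hk x hx)
  refine ⟨l * k, fun x hx => ?_⟩
  have := hl (k * x) (Finset.mem_image_of_mem _ hx)
  rwa [mul_assoc]

theorem UltraFE.refl (F : Ultrafilter ℕ+) : UltraFE F F := fun B hB => ⟨B, hB, SetFE.refl B⟩

theorem UltraFE.trans {F G H : Ultrafilter ℕ+} (h1 : UltraFE F G) (h2 : UltraFE G H) :
    UltraFE F H := by
  intro C hC
  obtain ⟨B, hB, hBC⟩ := h2 C hC
  obtain ⟨A, hA, hAB⟩ := h1 B hB
  exact ⟨A, hA, hAB.trans hBC⟩

/-- The set of all ultrafilters on the positive integers (principal ones included), as a copy of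
`Ultrafilter ℕ+` that carries the finite embeddability preorder. -/
def BetaN : Type := Ultrafilter ℕ+

/-- The finite embeddability preorder on ultrafilters. -/
instance : Preorder BetaN where
  le F G := UltraFE F G
  le_refl F := UltraFE.refl F
  le_trans _ _ _ h1 h2 := UltraFE.trans h1 h2

/-- The classes of ultrafilters modulo mutual finite embeddability, with the induced partial
order. -/
abbrev FEClass : Type := Antisymmetrization BetaN (· ≤ ·)

theorem two_pow_inj {m n : ℕ} (h : (2 : ℕ+) ^ m = 2 ^ n) : m = n := by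
  have h' : (2 : ℕ) ^ m = 2 ^ n := by
    have := congrArg (fun x : ℕ+ => (x : ℕ)) h
    simpa [PNat.pow_coe] using this
  exact Nat.pow_right_injective (le_refl 2) h'

theorem mul_eq_two_pow {k x : ℕ+} {m : ℕ} (h : k * x = 2 ^ m) :
    ∃ r s : ℕ, k = 2 ^ r ∧ x = 2 ^ s ∧ r + s = m := by
  have h' : (k : ℕ) * (x : ℕ) = 2 ^ m := by
    have := congrArg (fun x : ℕ+ => (x : ℕ)) h
    simpa [PNat.pow_coe] using this
  obtain ⟨r, -, hr⟩ := (Nat.dvd_prime_pow Nat.prime_two).1 (Dvd.intro _ h')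
  obtain ⟨s, -, hs⟩ := (Nat.dvd_prime_pow Nat.prime_two).1 (Dvd.intro_left _ h')
  refine ⟨r, s, ?_, ?_, ?_⟩
  · apply PNat.coe_injective
    simpa [PNat.pow_coe] using hr
  · apply PNat.coe_injective
    simpa [PNat.pow_coe] using hs
  · rw [hr, hs, ← pow_add] at h'
    exact Nat.pow_right_injective (le_refl 2) h'

/-- The set of those `2 ^ m` for which `m + a` is a power of two. -/
def P (a : ℕ) : Set ℕ+ := {x | ∃ m n : ℕ, x = 2 ^ m ∧ m + a = 2 ^ n}

theorem bound_of_lt {u v n n' : ℕ} (hn : u = 2 ^ n) (hn' : v = 2 ^ n') (h : u < v) :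
    u ≤ v - u := by
  subst hn hn'
  have h1 : n < n' := (Nat.pow_lt_pow_iff_right (by norm_num)).1 h
  have h2 : 2 ^ (n + 1) ≤ 2 ^ n' := Nat.pow_le_pow_right (by norm_num) h1
  rw [pow_succ] at h2
  omega

theorem P_inter_finite {a b : ℕ} (hab : a < b) : (P a ∩ P b).Finite := by
  refine ((Set.finite_Iic (b - a)).image (fun m : ℕ => (2 : ℕ+) ^ m)).subset ?_
  rintro x ⟨⟨m, n, rfl, hn⟩, ⟨m', n', hm', hn'⟩⟩
  have : m = m' := two_pow_inj hm'
  subst this
  refine ⟨m, ?_, rfl⟩
  have := bound_of_lt hn hn' (by omega)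
  simp only [Set.mem_Iic]
  omega

theorem P_unique {G : Ultrafilter ℕ+} (hG : ∀ s ∈ G, s.Infinite) {a b : ℕ} (ha : P a ∈ G)
    (hb : P b ∈ G) : a = b := by
  have hinf := hG _ (Filter.inter_mem ha hb)
  rcases lt_trichotomy a b with h | h | h
  · exact absurd (P_inter_finite h) hinf
  · exact h
  · rw [Set.inter_comm] at hinf
    exact absurd (P_inter_finite h) hinf

/-- The `i`-th ultrafilter of the chain: the image of a nonprincipal ultrafilter under
`n ↦ 2 ^ (2 ^ n - i)`. -/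
noncomputable def chain (i : ℕ) : Ultrafilter ℕ+ :=
  (Filter.hyperfilter ℕ).map (fun n => (2 : ℕ+) ^ (2 ^ n - i))

theorem eventually_large (i : ℕ) : ∀ᶠ n in (Filter.hyperfilter ℕ : Filter ℕ), i ≤ 2 ^ n := by
  apply Filter.hyperfilter_le_cofinite
  rw [Nat.cofinite_eq_atTop]
  filter_upwards [Filter.eventually_ge_atTop i] with n hn
  exact hn.trans Nat.lt_two_pow_self.le

theorem mem_chain {i : ℕ} {B : Set ℕ+} :
    B ∈ chain i ↔ ∀ᶠ n in (Filter.hyperfilter ℕ : Filter ℕ), (2 : ℕ+) ^ (2 ^ n - i) ∈ B :=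
  Iff.rfl

theorem P_mem_chain (i : ℕ) : P i ∈ chain i := by
  rw [mem_chain]
  filter_upwards [eventually_large i] with n hn
  exact ⟨2 ^ n - i, n, rfl, by omega⟩

theorem chain_infinite (i : ℕ) : ∀ s ∈ chain i, s.Infinite := by
  intro s hs hfin
  rw [mem_chain] at hs
  -- the preimage of a finite set is finite
  have hfin' : {n : ℕ | (2 : ℕ+) ^ (2 ^ n - i) ∈ s ∧ i ≤ 2 ^ n}.Finite := by
    refine Set.Finite.of_finite_image (f := fun n => (2 : ℕ+) ^ (2 ^ n - i))
      (hfin.subset ?_) ?_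
    · rintro _ ⟨n, ⟨hn, -⟩, rfl⟩
      exact hn
    · rintro n ⟨-, hn⟩ n' ⟨-, hn'⟩ h
      have h1 : 2 ^ n - i = 2 ^ n' - i := two_pow_inj h
      have h2 : 2 ^ n = 2 ^ n' := by omega
      exact Nat.pow_right_injective (le_refl 2) h2
  have hmem : {n : ℕ | (2 : ℕ+) ^ (2 ^ n - i) ∈ s ∧ i ≤ 2 ^ n} ∈ Filter.hyperfilter ℕ := by
    filter_upwards [hs, eventually_large i] with n h1 h2
    exact ⟨h1, h2⟩
  exact Filter.notMem_hyperfilter_of_finite hfin' hmem

theorem chain_le {i j : ℕ} (h : i ≤ j) : UltraFE (chain j) (chain i) := by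
  intro B hB
  refine ⟨{x | 2 ^ (j - i) * x ∈ B}, ?_, ?_⟩
  · rw [mem_chain] at hB ⊢
    filter_upwards [hB, eventually_large j] with n hn hj
    have : (2 : ℕ+) ^ (j - i) * 2 ^ (2 ^ n - j) = 2 ^ (2 ^ n - i) := by
      rw [← pow_add]
      congr 1
      omega
    simpa [this] using hn
  · intro F hF
    exact ⟨2 ^ (j - i), fun x hx => hF hx⟩

/-- If a nonprincipal ultrafilter `G` is finitely embeddable in `chain i` then it contains some
`P (r + i)`. -/
theorem P_mem_of_le {G : Ultrafilter ℕ+} (hG : ∀ s ∈ G, s.Infinite) {i : ℕ}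
    (h : UltraFE G (chain i)) : ∃ r : ℕ, P (r + i) ∈ G := by
  classical
  obtain ⟨A, hA, hAB⟩ := h (P i) (P_mem_chain i)
  have hinf := hG A hA
  -- every element of `A` is a power of two
  have hpow : ∀ x ∈ A, ∃ s : ℕ, x = 2 ^ s := by
    intro x hx
    obtain ⟨k, hk⟩ := hAB {x} (by simpa using hx)
    obtain ⟨m, n, hm, -⟩ := hk x (by simp)
    obtain ⟨r, s, -, hs, -⟩ := mul_eq_two_pow hm
    exact ⟨s, hs⟩
  obtain ⟨x, hx, y, hy, hxy⟩ := hinf.nontrivial
  obtain ⟨s, rfl⟩ := hpow x hx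
  obtain ⟨t, rfl⟩ := hpow y hy
  -- without loss of generality `s < t`
  wlog hst : s < t generalizing s t
  · have hst' : t < s := by
      rcases lt_trichotomy s t with h1 | h1 | h1
      · exact absurd h1 hst
      · exact absurd (congrArg (fun m => (2 : ℕ+) ^ m) h1) hxy
      · exact h1
    exact this t hy s hx hxy.symm hst'
  -- a single exponent works
  have key : ∃ r : ℕ, ∀ z ∈ A, 2 ^ r * z ∈ P i := by
    by_contra hcon
    push Not at hcon
    choose z hzA hz using hcon
    obtain ⟨k, hk⟩ := hAB ({2 ^ s, 2 ^ t} ∪ (Finset.range (t - s + 1)).image z) (by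
      intro w hw
      simp only [Finset.coe_union, Finset.coe_insert, Finset.coe_singleton, Finset.coe_image,
        Finset.coe_range, Set.mem_union, Set.mem_insert_iff, Set.mem_singleton_iff,
        Set.mem_image, Set.mem_Iio] at hw
      rcases hw with (rfl | rfl) | ⟨r, -, rfl⟩
      · exact hx
      · exact hy
      · exact hzA r)
    obtain ⟨m, n, hm, hn⟩ := hk (2 ^ s) (by simp)
    obtain ⟨m', n', hm', hn'⟩ := hk (2 ^ t) (by simp)
    obtain ⟨r, s', hr, hs', hrs⟩ := mul_eq_two_pow hm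
    obtain rfl : s = s' := two_pow_inj hs'
    subst hr
    have hm'' : r + t = m' := by
      rw [← pow_add] at hm'
      exact two_pow_inj hm'
    have hb := bound_of_lt hn hn' (by omega)
    have hr : r < t - s + 1 := by omega
    refine hz r (hk (z r) ?_)
    refine Finset.mem_union_right _ (Finset.mem_image_of_mem _ ?_)
    simpa using hr
  obtain ⟨r, hr⟩ := key
  refine ⟨r, Filter.mem_of_superset hA ?_⟩
  intro z hz
  obtain ⟨m, n, hm, hn⟩ := hr z hz
  obtain ⟨r', s', hr', rfl, hrs⟩ := mul_eq_two_pow hm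
  obtain rfl : r = r' := two_pow_inj hr'
  exact ⟨s', n, rfl, by omega⟩

theorem not_chain_le {i j : ℕ} (h : i < j) : ¬ UltraFE (chain i) (chain j) := by
  intro hle
  obtain ⟨r, hr⟩ := P_mem_of_le (chain_infinite i) hle
  have := P_unique (chain_infinite i) (P_mem_chain i) hr
  omega

/-- A lower bound of the chain is a principal ultrafilter. -/
theorem exists_finite_of_lower {G : Ultrafilter ℕ+} (h : ∀ i, UltraFE G (chain i)) :
    ∃ s ∈ G, s.Finite := by
  by_contra hcon
  push Not at hcon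
  have hG : ∀ s ∈ G, s.Infinite := fun s hs => hcon s hs
  obtain ⟨r, hr⟩ := P_mem_of_le hG (h 0)
  obtain ⟨r', hr'⟩ := P_mem_of_le hG (h (r + 1))
  have := P_unique hG hr hr'
  omega

theorem pure_le_chain (m i : ℕ) : UltraFE (pure (2 ^ m)) (chain i) := by
  intro B hB
  rw [mem_chain] at hB
  obtain ⟨n, hn, hlarge⟩ := (hB.and (eventually_large (i + m))).exists
  refine ⟨{2 ^ m}, by simp, ?_⟩
  intro F hF
  refine ⟨2 ^ (2 ^ n - i - m), fun x hx => ?_⟩
  have hx' : x = 2 ^ m := by simpa using hF hx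
  subst hx'
  rw [← pow_add]
  have : 2 ^ n - i - m + m = 2 ^ n - i := by omega
  rwa [this]

theorem not_greatest {G : Ultrafilter ℕ+} (h : ∀ i, UltraFE G (chain i)) :
    ∃ m : ℕ, ¬ UltraFE (pure (2 ^ m)) G := by
  obtain ⟨s, hs, hfin⟩ := exists_finite_of_lower h
  obtain ⟨x, hx, hGx⟩ := Ultrafilter.eq_pure_of_finite_mem hfin hs
  subst hGx
  refine ⟨(x : ℕ), fun hle => ?_⟩
  obtain ⟨A, hA, hAB⟩ := hle {x} (by simp)
  have hA' : (2 : ℕ+) ^ (x : ℕ) ∈ A := by simpa using hA
  obtain ⟨k, hk⟩ := hAB {2 ^ (x : ℕ)} (by simpa using hA')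
  have h1 : k * 2 ^ (x : ℕ) = x := by simpa using hk (2 ^ (x : ℕ)) (by simp)
  have h2 : (k : ℕ) * 2 ^ (x : ℕ) = x := by
    have := congrArg (fun x : ℕ+ => (x : ℕ)) h1
    simpa [PNat.pow_coe] using this
  have h3 : (x : ℕ) < 2 ^ (x : ℕ) := Nat.lt_two_pow_self
  have h4 : 1 ≤ (k : ℕ) := k.pos
  nlinarith

/-- The class of an ultrafilter. -/
def cls (F : Ultrafilter ℕ+) : FEClass := toAntisymmetrization (α := BetaN) (· ≤ ·) F

theorem cls_le {F G : Ultrafilter ℕ+} : cls F ≤ cls G ↔ UltraFE F G := Iff.rfl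

/-- There is a strictly decreasing sequence of classes of ultrafilters on the positive integers,
ordered by multiplicative finite embeddability, that has no greatest lower bound. -/
theorem result : ∃ c : ℕ → FEClass, StrictAnti c ∧ ¬ ∃ g : FEClass, IsGLB (Set.range c) g := by
  refine ⟨fun i => cls (chain i), ?_, ?_⟩
  · intro i j hij
    rw [lt_iff_le_not_ge]
    exact ⟨cls_le.2 (chain_le hij.le), fun h => not_chain_le hij (cls_le.1 h)⟩
  · rintro ⟨g, hg⟩
    obtain ⟨G, rfl⟩ : ∃ G : Ultrafilter ℕ+, cls G = g := by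
      induction g using Antisymmetrization.ind with
      | _ G => exact ⟨G, rfl⟩
    have hlow : ∀ i, UltraFE G (chain i) := fun i => cls_le.1 (hg.1 (Set.mem_range_self i))
    obtain ⟨m, hm⟩ := not_greatest hlow
    apply hm
    have hm' : cls (pure (2 ^ m)) ≤ cls G := by
      apply hg.2
      rintro _ ⟨i, rfl⟩
      exact cls_le.2 (pure_le_chain m i)
    exact cls_le.1 hm'

end Pool.Agent.Results.MP_26c4ab_lc.NoGLB
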